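import Mathlib
import Pool.Agent.H33.G.R_seed8.H307R2.LU

/-! Siegel's theorem, part 1: quadratic characters. -/

open Filter Topology Set
open scoped ComplexOrder

namespace Pool.Agent.H307R2

noncomputable section

lemma quad_vals {q : ℕ} {χ : DirichletCharacter ℂ q} (h : χ ^ 2 = 1) (a : ZMod q) :
    χ a = 0 ∨ χ a = 1 ∨ χ a = -1 :=
  (MulChar.isQuadratic_iff_sq_eq_one.mpr h) a

/-- the product of `χ1` and `χ2`, modulo `q1 * q2` -/
def psi {q1 q2 : ℕ} (χ1 : DirichletCharacter ℂ q1) (χ2 : DirichletCharacter ℂ q2) :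
    DirichletCharacter ℂ (q1 * q2) :=
  DirichletCharacter.changeLevel (dvd_mul_right q1 q2) χ1 *
    DirichletCharacter.changeLevel (dvd_mul_left q2 q1) χ2

lemma psi_apply {q1 q2 : ℕ} (χ1 : DirichletCharacter ℂ q1) (χ2 : DirichletCharacter ℂ q2) (n : ℕ) :
    psi χ1 χ2 (n : ZMod (q1 * q2)) = χ1 (n : ZMod q1) * χ2 (n : ZMod q2) := by
  unfold psi
  rw [MulChar.mul_apply]
  by_cases h : IsCoprime (n : ℤ) ((q1 * q2 : ℕ) : ℤ)
  · have h1 := DirichletCharacter.changeLevel_eq_cast_of_dvd' χ1 (dvd_mul_right q1 q2) h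
    have h2 := DirichletCharacter.changeLevel_eq_cast_of_dvd' χ2 (dvd_mul_left q2 q1) h
    push_cast at h1 h2
    rw [h1, h2]
  · have h0 : DirichletCharacter.changeLevel (dvd_mul_right q1 q2) χ1
        ((n : ℤ) : ZMod (q1 * q2)) = 0 :=
      (DirichletCharacter.apply_eq_zero_iff _ _).2 h
    have h0' : DirichletCharacter.changeLevel (dvd_mul_right q1 q2) χ1
        (n : ZMod (q1 * q2)) = 0 := by
      have e : ((n : ℤ) : ZMod (q1 * q2)) = (n : ZMod (q1 * q2)) := by push_cast; rfl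
      rw [← e]; exact h0
    rw [h0', zero_mul]
    symm
    have h3 : ¬ (IsCoprime (n : ℤ) (q1 : ℤ) ∧ IsCoprime (n : ℤ) (q2 : ℤ)) := by
      rintro ⟨a, b⟩
      apply h
      push_cast
      exact a.mul_right b
    rw [not_and_or] at h3
    rcases h3 with h3 | h3
    · have := (DirichletCharacter.apply_eq_zero_iff χ1 (n : ℤ)).2 h3
      have e : ((n : ℤ) : ZMod q1) = (n : ZMod q1) := by push_cast; rfl
      rw [e] at this
      rw [this, zero_mul]
    · have := (DirichletCharacter.apply_eq_zero_iff χ2 (n : ℤ)).2 h3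
      have e : ((n : ℤ) : ZMod q2) = (n : ZMod q2) := by push_cast; rfl
      rw [e] at this
      rw [this, mul_zero]

lemma psi_sq {q1 q2 : ℕ} {χ1 : DirichletCharacter ℂ q1} {χ2 : DirichletCharacter ℂ q2}
    (h1 : χ1 ^ 2 = 1) (h2 : χ2 ^ 2 = 1) : psi χ1 χ2 ^ 2 = 1 := by
  unfold psi
  rw [mul_pow, ← map_pow, ← map_pow, h1, h2, map_one, map_one, one_mul]

/-- if `ψ = 1` then the primitive character `χ2` has modulus at most `q1` -/
lemma le_of_psi_eq_one {q1 q2 : ℕ} [NeZero q1] [NeZero q2] {χ1 : DirichletCharacter ℂ q1}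
    {χ2 : DirichletCharacter ℂ q2} (h2 : χ2 ^ 2 = 1) (hp : χ2.IsPrimitive)
    (h : psi χ1 χ2 = 1) : q2 ≤ q1 := by
  haveI : NeZero (q1 * q2) := ⟨mul_ne_zero (NeZero.ne q1) (NeZero.ne q2)⟩
  have h3 : DirichletCharacter.changeLevel (dvd_mul_right q1 q2) χ1 =
      DirichletCharacter.changeLevel (dvd_mul_left q2 q1) χ2 := by
    have h4 : (DirichletCharacter.changeLevel (dvd_mul_left q2 q1) χ2) *
        (DirichletCharacter.changeLevel (dvd_mul_left q2 q1) χ2) = 1 := by
      rw [← sq, ← map_pow, h2, map_one]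
    have h5 := eq_inv_of_mul_eq_one_left h
    have h6 := eq_inv_of_mul_eq_one_left h4
    rw [h5, ← h6]
  have h4 := DirichletCharacter.conductor_changeLevel χ1 (dvd_mul_right q1 q2)
  have h5 := DirichletCharacter.conductor_changeLevel χ2 (dvd_mul_left q2 q1)
  rw [h3, h5] at h4
  have h6 : χ2.conductor = q2 := hp
  have h7 := DirichletCharacter.conductor_dvd_level χ1
  rw [← h4, h6] at h7
  exact Nat.le_of_dvd (Nat.pos_of_ne_zero (NeZero.ne q1)) h7

/-- for a quadratic character `L(x,χ)` is real on the positive real axis -/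
lemma LFunction_im {q : ℕ} [NeZero q] {χ : DirichletCharacter ℂ q} (h : χ ^ 2 = 1) (hχ : χ ≠ 1)
    {x : ℝ} (hx : 0 < x) : (χ.LFunction (x : ℂ)).im = 0 := by
  have hre : ∀ a : ZMod q, ((χ a).re : ℂ) = χ a := by
    intro a
    rcases quad_vals h a with h1 | h1 | h1 <;> rw [h1] <;> simp
  rw [LFunction_eq hχ le_rfl (s := (x : ℂ)) (by simpa using hx)]
  have e1 : TM 1 (Ech χ 1) (x : ℂ) =
      ((∫ t in Ioi ((1 : ℕ) : ℝ), (∑ k ∈ Finset.Ioc 1 ⌊t⌋₊, (χ (k : ZMod q)).re) *
        t ^ (-(x + 1)) : ℝ) : ℂ) := by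
    unfold TM
    rw [← integral_complex_ofReal]
    refine MeasureTheory.setIntegral_congr_fun measurableSet_Ioi fun t ht => ?_
    have ht' : (1 : ℝ) < t := by simpa using ht
    have ht0 : 0 ≤ t := by linarith
    simp only [Ech]
    rw [Complex.ofReal_mul, Complex.ofReal_cpow ht0]
    push_cast
    congr 1
    refine Finset.sum_congr rfl fun k _ => ?_
    exact (hre _).symm
  rw [e1]
  simp [← Complex.ofReal_mul]

/-- for a quadratic character `L(2,χ) ≥ 1/3` -/
lemma LFunction_two_re {q : ℕ} [NeZero q] {χ : DirichletCharacter ℂ q} :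
    1 / 3 ≤ (χ.LFunction 2).re := by
  have h2 : (1 : ℝ) < (2 : ℂ).re := by norm_num
  rw [DirichletCharacter.LFunction_eq_LSeries χ h2]
  have hs := DirichletCharacter.LSeriesSummable_of_one_lt_re χ h2
  have hz : HasSum (fun n : ℕ => (1 : ℝ) / (n : ℝ) ^ 2) (Real.pi ^ 2 / 6) := hasSum_zeta_two
  have h3 : LSeries (fun n => χ (n : ZMod q)) 2 =
      ∑' n, LSeries.term (fun n => χ (n : ZMod q)) 2 n := rfl
  rw [h3, Complex.re_tsum hs]
  have hsr : Summable fun n => (LSeries.term (fun n => χ (n : ZMod q)) 2 n).re :=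
    (Complex.hasSum_re hs.hasSum).summable
  have h4 : ∀ n : ℕ, (if n = 1 then (2 : ℝ) else 0) - 1 / (n : ℝ) ^ 2 ≤
      (LSeries.term (fun n => χ (n : ZMod q)) 2 n).re := by
    intro n
    rcases Nat.eq_zero_or_pos n with h0 | h0
    · subst h0
      simp [LSeries.term_def]
    · rw [LSeries.term_of_ne_zero (by omega)]
      by_cases h1 : n = 1
      · subst h1
        simp
        norm_num
      · rw [if_neg h1, zero_sub]
        have h5 : ‖χ (n : ZMod q) / (n : ℂ) ^ (2 : ℂ)‖ ≤ 1 / (n : ℝ) ^ 2 := by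
          rw [norm_div, Complex.norm_natCast_cpow_of_pos h0]
          simp only [Complex.re_ofNat]
          rw [Real.rpow_two]
          exact div_le_div_of_nonneg_right (χ.norm_le_one _) (by positivity)
        have h6 := Complex.abs_re_le_norm (χ (n : ZMod q) / (n : ℂ) ^ (2 : ℂ))
        have h7 := neg_abs_le (χ (n : ZMod q) / (n : ℂ) ^ (2 : ℂ)).re
        linarith
  have h5 : HasSum (fun n : ℕ => (if n = 1 then (2 : ℝ) else 0) - 1 / (n : ℝ) ^ 2)
      (2 - Real.pi ^ 2 / 6) := (hasSum_ite_eq 1 (2 : ℝ)).sub hz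
  have h6 := hasSum_le h4 h5 hsr.hasSum
  have h7 : Real.pi ^ 2 < 10 := by
    have := Real.pi_lt_d2
    have := Real.pi_pos
    nlinarith
  linarith

end

end Pool.Agent.H307R2
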