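import Mathlib
import Pool.Agent.H33.G.R_seed8.H307R2.Sg3

/-! Siegel's theorem, part 4: Taylor expansion at `2` of `F(s) - λ/(s-1)`. -/

open Filter Topology Set
open scoped ComplexOrder

namespace Pool.Agent.H307R2

noncomputable section

variable {q1 q2 : ℕ} [NeZero q1] [NeZero q2] (χ1 : DirichletCharacter ℂ q1)
  (χ2 : DirichletCharacter ℂ q2)

/-- the entire function `(s-1) F(s)` -/
def PP (s : ℂ) : ℂ := DirichletCharacter.LFunctionTrivChar₁ 1 s * HH χ1 χ2 s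

/-- `F(s) - λ/(s-1)`, entire -/
def KK : ℂ → ℂ := dslope (PP χ1 χ2) 1

variable {χ1 χ2}

lemma HH_differentiable (n1 : χ1 ≠ 1) (n2 : χ2 ≠ 1) (n3 : psi χ1 χ2 ≠ 1) :
    Differentiable ℂ (HH χ1 χ2) := by
  unfold HH
  exact ((DirichletCharacter.differentiable_LFunction n1).fun_mul
    (DirichletCharacter.differentiable_LFunction n2)).fun_mul
    (DirichletCharacter.differentiable_LFunction n3)

lemma PP_differentiable (n1 : χ1 ≠ 1) (n2 : χ2 ≠ 1) (n3 : psi χ1 χ2 ≠ 1) :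
    Differentiable ℂ (PP χ1 χ2) := by
  unfold PP
  exact (DirichletCharacter.differentiable_LFunctionTrivChar₁ 1).fun_mul
    (HH_differentiable n1 n2 n3)

lemma KK_differentiable (n1 : χ1 ≠ 1) (n2 : χ2 ≠ 1) (n3 : psi χ1 χ2 ≠ 1) :
    Differentiable ℂ (KK χ1 χ2) := by
  rw [← differentiableOn_univ]
  unfold KK
  exact (Complex.differentiableOn_dslope Filter.univ_mem).2
    (PP_differentiable n1 n2 n3).differentiableOn

lemma PP_one : PP χ1 χ2 1 = HH χ1 χ2 1 := by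
  unfold PP DirichletCharacter.LFunctionTrivChar₁
  simp

lemma PP_ne {s : ℂ} (hs : s ≠ 1) : PP χ1 χ2 s = (s - 1) * FF χ1 χ2 s := by
  unfold PP DirichletCharacter.LFunctionTrivChar₁
  rw [Function.update_of_ne hs]
  unfold DirichletCharacter.LFunctionTrivChar
  rw [DirichletCharacter.LFunction_modOne_eq]
  unfold FF
  ring

lemma KK_ne {s : ℂ} (hs : s ≠ 1) : KK χ1 χ2 s = FF χ1 χ2 s - HH χ1 χ2 1 * (1 * s - 1)⁻¹ := by
  unfold KK
  rw [dslope_of_ne _ hs, slope_def_field, PP_one, PP_ne hs]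
  have : s - 1 ≠ 0 := sub_ne_zero.2 hs
  field_simp

lemma FF_analyticAt_two : AnalyticAt ℂ (FF χ1 χ2) 2 := by
  have hU : IsOpen {z : ℂ | 1 < z.re} := isOpen_lt continuous_const Complex.continuous_re
  have h2U : (2 : ℂ) ∈ {z : ℂ | 1 < z.re} := by simp
  have : DifferentiableOn ℂ (FF χ1 χ2) {z : ℂ | 1 < z.re} := by
    intro s hs
    have hs' : 1 < s.re := hs
    have hs1 := ne_one_of_re hs'
    apply DifferentiableAt.differentiableWithinAt
    unfold FF HH
    exact (differentiableAt_riemannZeta hs1).fun_mul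
      (((DirichletCharacter.differentiableAt_LFunction χ1 s (Or.inl hs1)).fun_mul
        (DirichletCharacter.differentiableAt_LFunction χ2 s (Or.inl hs1))).fun_mul
        (DirichletCharacter.differentiableAt_LFunction _ s (Or.inl hs1)))
  exact this.analyticAt (hU.mem_nhds h2U)

lemma iteratedDeriv_inv_two (m : ℕ) :
    iteratedDeriv m (fun s : ℂ => (1 * s - 1)⁻¹) 2 = (-1) ^ m * m.factorial := by
  rw [iteratedDeriv_eq_iterate, iter_deriv_inv_linear_sub]
  norm_num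

lemma KK_iteratedDeriv (m : ℕ) : iteratedDeriv m (KK χ1 χ2) 2 =
    iteratedDeriv m (FF χ1 χ2) 2 - HH χ1 χ2 1 * ((-1) ^ m * m.factorial) := by
  have h1 : KK χ1 χ2 =ᶠ[𝓝 (2 : ℂ)] fun s => FF χ1 χ2 s - HH χ1 χ2 1 * (1 * s - 1)⁻¹ := by
    have : {z : ℂ | z ≠ 1} ∈ 𝓝 (2 : ℂ) := isOpen_ne.mem_nhds (by norm_num)
    filter_upwards [this] with s hs
    exact KK_ne hs
  rw [h1.iteratedDeriv_eq m]
  have h2 : ContDiffAt ℂ m (fun s : ℂ => (1 * s - 1)⁻¹) 2 := by
    apply ContDiffAt.inv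
    · fun_prop
    · norm_num
  rw [iteratedDeriv_fun_sub (FF_analyticAt_two.contDiffAt) (contDiffAt_const.mul h2)]
  congr 1
  have h3 := iteratedDeriv_const_mul_field (n := m) (x := (2 : ℂ)) (HH χ1 χ2 1)
    (fun s : ℂ => (1 * s - 1)⁻¹)
  rw [h3, iteratedDeriv_inv_two]

end

end Pool.Agent.H307R2
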